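import Pool.Agent.Y190.SN.Lang
import Pool.Agent.Y190.PH.Tor

/-!
Kobayashi hyperbolicity and the canonical classes of the subvarieties, for the varieties of vectors
whose `m`-th powers are the values of a polynomial of low degree.
-/

set_option autoImplicit false

namespace Pool.Agent.Y460.KB

open FF Pool.Agent.W603.LV Pool.Agent.W602.GT Pool.Agent.Y190.BV Pool.Agent.Y190.AH
  Pool.Agent.Y190.PH

variable {N : ℕ} {ι : Type}

/-- All closed subvarieties of positive dimension `w` of `V = {F = 0}`, with function field `K`, have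
the property `P`. -/
def AllSub (P : (K : Type) → [Field K] → [Algebra ℂ K] → ℕ → Prop)
    (F : ι → MvPolynomial (Fin (N + 1)) ℂ) : Prop :=
  ∀ (K : Type) [Field K] [Algebra ℂ K] (w : ℕ) (y : Fin (N + 1) → K), 1 ≤ w →
    SubVar F K w y → P K w

theorem sub_tfae {n m : ℕ} (hm : 2 ≤ m) (hn : n ≤ N)
    (hN : 4 * n + (n + 1) ^ 2 < 2 * (N + 1)) {a : Fin (N + 1) → ℂ}
    (ha : Function.Injective a) {F : ι → MvPolynomial (Fin (N + 1)) ℂ}
    (hS : AllSimple a n m F) {K : Type} [Field K] [Algebra ℂ K] {w : ℕ} {y : Fin (N + 1) → K}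
    (hy : SubVar F K w y) :
    (∀ G : MvPolynomial (Fin (N + 1)) ℂ, IsForm G →
      (val y G = 0 ↔ ∀ x ∈ Cone (van (k := ℂ) y), val x G = 0)) ∧
    [¬ KodGe ℂ K w (fun _ => False) 0, ¬ Psef ℂ K w (fun _ => False), Ruled ℂ K,
      SpLine (van (k := ℂ) y) = Cone (van (k := ℂ) y),
      SpGm (van (k := ℂ) y) = Cone (van (k := ℂ) y),
      SpAlg (van (k := ℂ) y) = Cone (van (k := ℂ) y), ¬ GeneralType ℂ K w].TFAE := by
  have hs := simple_all (by omega) hn ha hS hy.ne hy.mem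
  have hyb : ∀ l : Rel a n, val y (buchi a n m l) = 0 := sub_ext (hS.sub hn ha) hy.ne hy.mem
  obtain ⟨h1, h2, h3⟩ := sub_data (U := ∅) hn ha hy.ne
    (fun j hj => absurd hj (Set.notMem_empty j)) (intp_natDegree ha hn _)
    (fun i => ((intp_eval ha hn m hyb) i).symm) hs
  have hcone : ConeU ∅ (van (k := ℂ) y) = Cone (van (k := ℂ) y) := by
    ext x
    exact ⟨fun h => ⟨h.1, h.2.2⟩, fun h => ⟨h.1, fun j hj => absurd hj (Set.notMem_empty j), h.2⟩⟩
  rw [hcone] at h1 h2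
  exact ⟨h2, Pool.Agent.Y190.SN.lang_simple hm hn hN ha (fun e => e.2.1) h1
    (⟨hy.ne, fun e => e.2.2, hy.gen, hy.dim⟩ : SubVar (van (k := ℂ) y) K w y) h3 h2⟩

theorem line_of_sub {n m : ℕ} (hm : 2 ≤ m) (hn : n ≤ N)
    (hN : 4 * n + (n + 1) ^ 2 < 2 * (N + 1)) {a : Fin (N + 1) → ℂ}
    (ha : Function.Injective a) {F : ι → MvPolynomial (Fin (N + 1)) ℂ} (hF : ∀ e, IsForm (F e))
    (hS : AllSimple a n m F) {K : Type} [Field K] [Algebra ℂ K] {w : ℕ} {y : Fin (N + 1) → K}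
    (hy : SubVar F K w y) (hno : NoLines F) : GeneralType ℂ K w := by
  by_contra hgt
  obtain ⟨h2, ht⟩ := sub_tfae hm hn hN ha hS hy
  have h4 : SpLine (van (k := ℂ) y) = Cone (van (k := ℂ) y) := (ht.out 6 3).1 hgt
  obtain ⟨x, hx⟩ : ∃ x, x ∈ Cone (van (k := ℂ) y) := by
    by_contra hcon
    push Not at hcon
    have h5 := (h2 1 ⟨0, MvPolynomial.isHomogeneous_one _ _⟩).2 fun x hx => absurd hx (hcon x)
    unfold val at h5
    rw [map_one] at h5
    exact one_ne_zero h5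
  rw [← h4] at hx
  have h6 := hx.2 1 ⟨0, MvPolynomial.isHomogeneous_one _ _⟩ fun p q hpq => by
    exfalso
    exact hno p q ⟨hpq.1, fun c c' e => hpq.2 c c' ⟨F e, hF e, hy.mem e⟩⟩
  unfold val at h6
  rw [map_one] at h6
  exact one_ne_zero h6

theorem no_line_of {F : ι → MvPolynomial (Fin (N + 1)) ℂ} (hF : ∀ e, IsForm (F e))
    (h : AllSub (fun K _ _ w => GeneralType ℂ K w) F) : NoLines F := by
  intro p q hpq
  have h1 : (1 : ℂ) • p + (0 : ℂ) • q ∈ SpLine F := by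
    refine ⟨⟨line_ne hpq one_ne_zero, fun e => hpq.2 1 0 e⟩, fun G _ hG => hG p q hpq 1 0⟩
  have h2 := gm_sub_alg hF (line_sub_gm F h1)
  have h3 := h2.2 1 ⟨0, MvPolynomial.isHomogeneous_one _ _⟩
    fun K _ _ w y hw hy hgt => absurd (h K w y hw hy) hgt
  unfold val at h3
  rw [map_one] at h3
  exact one_ne_zero h3

/-- For `n < 2 m` all the points of the variety of the vectors of values are simple. -/
theorem allSimple_of_lt {n m : ℕ} (hnm : n < 2 * m) {a : Fin (N + 1) → ℂ}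
    {F : ι → MvPolynomial (Fin (N + 1)) ℂ} (hF : Cone F ⊆ PowVal a n m) :
    AllSimple a n m F := by
  intro x hx
  obtain ⟨hx0, H, h1, h2⟩ := hF hx
  refine ⟨H, h1, h2, fun q hq => ?_⟩
  have hm : m ≠ 0 := by omega
  have hH : H ≠ 0 := by
    rintro rfl
    apply hx0
    funext i
    have h3 := h2 i
    rw [Polynomial.eval_zero] at h3
    exact pow_eq_zero_iff hm |>.1 h3
  have h4 := Polynomial.natDegree_le_of_dvd hq hH
  rw [Polynomial.natDegree_pow] at h4
  by_contra h5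
  push Not at h5
  nlinarith

/-- **Kobayashi hyperbolicity and canonical classes.** -/
theorem main {n m : ℕ} (hm : 2 ≤ m)
    (hN : 4 * n + (n + 1) ^ 2 < 2 * (N + 1)) {a : Fin (N + 1) → ℂ}
    (ha : Function.Injective a) {F : ι → MvPolynomial (Fin (N + 1)) ℂ} (hF : ∀ e, IsForm (F e))
    (hS : AllSimple a n m F) :
    [Brody F, AlgHyp F, NoLines F, AllSub (fun K _ _ w => GeneralType ℂ K w) F,
      AllSub (fun K _ _ w => KodGe ℂ K w (fun _ => False) 0) F,
      AllSub (fun K _ _ w => Psef ℂ K w (fun _ => False)) F,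
      AllSub (fun K _ _ _ => ¬ Ruled ℂ K) F].TFAE := by
  have hn : n ≤ N := by nlinarith
  have hN' : 4 * n < N + 1 := by
    have h1 : 4 * n ≤ (n + 1) ^ 2 := by
      zify
      nlinarith [sq_nonneg ((n : ℤ) - 1)]
    omega
  have h3 := hyp_tfae hm hN' ha hF hS
  tfae_have 1 ↔ 3 := h3.out 0 2
  tfae_have 2 ↔ 3 := h3.out 1 2
  tfae_have 3 → 4 := fun h K _ _ w y _ hy => line_of_sub hm hn hN ha hF hS hy h
  tfae_have 4 → 3 := no_line_of hF
  have key : ∀ (K : Type) [Field K] [Algebra ℂ K] (w : ℕ) (y : Fin (N + 1) → K),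
      SubVar F K w y → (GeneralType ℂ K w ↔ KodGe ℂ K w (fun _ => False) 0) ∧
        (GeneralType ℂ K w ↔ Psef ℂ K w (fun _ => False)) ∧
        (GeneralType ℂ K w ↔ ¬ Ruled ℂ K) := by
    intro K _ _ w y hy
    have ht := (sub_tfae hm hn hN ha hS hy).2
    have h06 : ¬ KodGe ℂ K w (fun _ => False) 0 ↔ ¬ GeneralType ℂ K w := ht.out 0 6
    have h16 : ¬ Psef ℂ K w (fun _ => False) ↔ ¬ GeneralType ℂ K w := ht.out 1 6
    have h26 : Ruled ℂ K ↔ ¬ GeneralType ℂ K w := ht.out 2 6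
    exact ⟨(not_iff_not.1 h06).symm, (not_iff_not.1 h16).symm, by rw [h26, not_not]⟩
  tfae_have 4 ↔ 5 := ⟨fun h K _ _ w y hw hy => (key K w y hy).1.1 (h K w y hw hy),
    fun h K _ _ w y hw hy => (key K w y hy).1.2 (h K w y hw hy)⟩
  tfae_have 4 ↔ 6 := ⟨fun h K _ _ w y hw hy => (key K w y hy).2.1.1 (h K w y hw hy),
    fun h K _ _ w y hw hy => (key K w y hy).2.1.2 (h K w y hw hy)⟩
  tfae_have 4 ↔ 7 := ⟨fun h K _ _ w y hw hy => (key K w y hy).2.2.1 (h K w y hw hy),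
    fun h K _ _ w y hw hy => (key K w y hy).2.2.2 (h K w y hw hy)⟩
  tfae_finish

end Pool.Agent.Y460.KB
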